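import Mathlib
import Pool.Agent.P.MP_53fdf1_co.HEx
import Pool.Agent.P.MP_53fdf1_co.eG
import Pool.Agent.P.MP_53fdf1_co.vG

set_option autoImplicit false

open MeasureTheory Set

namespace Pool.Agent.Results.MP_53fdf1_co.TwentyFour

/-- A closed unit cube in any position: the image of `[0,1]^3` under an isometry of Euclidean 3-space. -/
def IsUnitCube (C : Set (EuclideanSpace ℝ (Fin 3))) : Prop :=
  ∃ φ : EuclideanSpace ℝ (Fin 3) ≃ᵢ EuclideanSpace ℝ (Fin 3),
    C = φ '' {x | ∀ i, x i ∈ Icc (0 : ℝ) 1}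

/-- An admissible family around `G`: unit cubes, all interiors pairwise disjoint, each boundary meeting the
boundary of `G` in positive area. -/
def Admissible (G : Set (EuclideanSpace ℝ (Fin 3))) {k : ℕ} (C : Fin k → Set (EuclideanSpace ℝ (Fin 3))) : Prop :=
  (∀ i, IsUnitCube (C i)) ∧ (∀ i, Disjoint (interior G) (interior (C i))) ∧
    (∀ i j, i ≠ j → Disjoint (interior (C i)) (interior (C j))) ∧
    ∀ i, 0 < μH[2] (frontier G ∩ frontier (C i))

/-- The largest size of an admissible family around a unit cube is 24. -/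
theorem result (G : Set (EuclideanSpace ℝ (Fin 3))) (hG : IsUnitCube G) :
    IsGreatest {k : ℕ | ∃ C : Fin k → Set (EuclideanSpace ℝ (Fin 3)), Admissible G C} 24 := by
  obtain ⟨φ, rfl⟩ := hG
  constructor
  · obtain ⟨ψ, a, b, c⟩ := Pool.Agent.P.MP_53fdf1_co.H.ex24 φ
    exact ⟨fun i => ψ i '' _, fun i => ⟨ψ i, rfl⟩, a, b, c⟩
  · rintro k ⟨C, hC, hGC, hCC, hpos⟩
    choose ψ hψ using hC
    simp only [hψ] at hGC hCC hpos
    exact Pool.Agent.P.MP_53fdf1_co.R.main24 Pool.Agent.P.MP_53fdf1_co.R.e.hole Pool.Agent.P.MP_53fdf1_co.R.v.hole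
      φ ψ _ rfl hGC hCC hpos

end Pool.Agent.Results.MP_53fdf1_co.TwentyFour
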